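import Pool.Agent.Helper64.GR.JointCore
import Pool.Agent.Helper13.GR.P4a

/-! MP_114a94_gt, package P14a: joint smoothness of solutions. -/

set_option autoImplicit false

open scoped ContDiff Topology NNReal ENNReal
open Set Filter MeasureTheory

namespace Pool.Agent.GR

open Pool.Agent.Helper25.GrimReaper

variable {n : ℕ}

theorem P14a.DP_cont {q m : ℕ} {f : Jet n → ℝ} (hf : DP q m f) : Continuous f := by
  induction hf with
  | zero => exact continuous_const
  | base φ hφ => exact hφ.continuous.comp (continuous_pi fun i => continuous_apply _)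
  | var w hw h1 hm => exact continuous_apply _
  | add _ _ h1 h2 => exact h1.add h2
  | mul _ _ h1 h2 => exact h1.mul h2

theorem contDiffOn_of_isSolOn {Ω : Set (E n)} (hΩ : IsOpen Ω) {u : ℝ → E n → ℝ}
    (hu : IsSolOn (Ioi 0) Ω u) :
    ContDiffOn ℝ ∞ (fun p : E n × ℝ => u p.2 p.1) (Ω ×ˢ Ioi (0 : ℝ)) :=
  P14a.main hΩ hu (fun hf => P14a.DP_cont hf) (fun hf _ hΩ _ hu => DP_contDiffOn hf hΩ hu)
    (fun hf i => DP_pd hf i) (by simpa using Dw_Fop_DP (n := n) []) (fun hf => DP_dt hf)

end Pool.Agent.GR
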