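import Pool.Agent.Helper35.GR.Defs2

/-! MP_114a94_gt, package P3b: the Sobolev inequality on the torus. -/

set_option autoImplicit false

open scoped ContDiff Topology NNReal ENNReal
open Set Filter MeasureTheory

namespace Pool.Agent.GR

open Pool.Agent.Helper25.GrimReaper

variable {n : ℕ}

namespace P3b

/-- one-dimensional inequality -/
theorem one_dim {P : ℝ} (hP : 0 < P) {g g' : ℝ → ℝ} (hg : ∀ s, HasDerivAt g (g' s) s)
    (hc : Continuous g') (hper : Function.Periodic g P) (t : ℝ) :
    (g t) ^ 2 ≤ (1 / P + 1) * ∫ s in (0 : ℝ)..P, ((g s) ^ 2 + (g' s) ^ 2) := by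
  have hgc : Continuous g := continuous_iff_continuousAt.2 fun s => (hg s).continuousAt
  -- reduce to t ∈ [0, P)
  obtain ⟨t', ht', hgt⟩ := hper.exists_mem_Ico₀ hP t
  rw [hgt]
  set I : ℝ := ∫ s in (0 : ℝ)..P, ((g s) ^ 2 + (g' s) ^ 2) with hI
  have hint : ∀ a b : ℝ, IntervalIntegrable (fun s => (g s) ^ 2 + (g' s) ^ 2) volume a b :=
    fun a b => ((hgc.pow 2).add (hc.pow 2)).intervalIntegrable a b
  have key : ∀ s ∈ Icc 0 P, (g t') ^ 2 ≤ (g s) ^ 2 + I := by
    intro s hs
    have h1 : ∫ r in s..t', 2 * g r * g' r = (g t') ^ 2 - (g s) ^ 2 := by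
      refine intervalIntegral.integral_eq_sub_of_hasDerivAt (f := fun r => (g r) ^ 2)
        (fun r _ => ?_) (((continuous_const.mul hgc).mul hc).intervalIntegrable _ _)
      have := (hg r).fun_pow 2
      simpa [pow_one] using this
    have h2 : |∫ r in s..t', 2 * g r * g' r| ≤ |∫ r in s..t', ((g r) ^ 2 + (g' r) ^ 2)| := by
      have := intervalIntegral.norm_integral_le_abs_of_norm_le (a := s) (b := t') (μ := volume)
        (f := fun r => 2 * g r * g' r) (g := fun r => (g r) ^ 2 + (g' r) ^ 2)
        (Eventually.of_forall fun r => by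
          rw [Real.norm_eq_abs, abs_le]
          constructor <;> nlinarith [sq_nonneg (g r + g' r), sq_nonneg (g r - g' r)])
        (hint _ _)
      simpa [Real.norm_eq_abs] using this
    have h3 : |∫ r in s..t', ((g r) ^ 2 + (g' r) ^ 2)| ≤ |I| := by
      refine intervalIntegral.abs_integral_mono_interval ?_
        (Eventually.of_forall fun r => by simp only [Pi.zero_apply]; positivity) (hint _ _)
      refine uIoc_subset_uIoc_of_uIcc_subset_uIcc (uIcc_subset_uIcc ?_ ?_)
      · rw [uIcc_of_le hP.le]; exact hs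
      · rw [uIcc_of_le hP.le]; exact ⟨ht'.1, ht'.2.le⟩
    have h4 : 0 ≤ I := by
      rw [hI]
      exact intervalIntegral.integral_nonneg hP.le fun r _ => by positivity
    rw [abs_of_nonneg h4] at h3
    have := le_abs_self (∫ r in s..t', 2 * g r * g' r)
    rw [h1] at this h2
    linarith
  have h5 : ∫ _ in (0 : ℝ)..P, (g t') ^ 2 ≤ ∫ s in (0 : ℝ)..P, ((g s) ^ 2 + I) :=
    intervalIntegral.integral_mono_on hP.le (by simp) 
      (((hgc.pow 2).add continuous_const).intervalIntegrable _ _) key
  have h5' : ∫ s in (0 : ℝ)..P, ((g s) ^ 2 + I) = (∫ s in (0 : ℝ)..P, (g s) ^ 2) + P * I := by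
    rw [intervalIntegral.integral_add (f := fun s => (g s) ^ 2) (g := fun _ => I)
      ((hgc.pow 2).intervalIntegrable _ _) (by simp), intervalIntegral.integral_const]
    simp
  rw [intervalIntegral.integral_const, h5'] at h5
  have h6 : ∫ s in (0 : ℝ)..P, (g s) ^ 2 ≤ I :=
    intervalIntegral.integral_mono_on hP.le ((hgc.pow 2).intervalIntegrable _ _) (hint _ _)
      fun r _ => by nlinarith [sq_nonneg (g' r)]
  simp only [sub_zero, smul_eq_mul] at h5
  have h7 : P * (g t') ^ 2 ≤ P * ((1 / P + 1) * I) := by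
    have : P * ((1 / P + 1) * I) = I + P * I := by field_simp
    rw [this]; linarith
  exact le_of_mul_le_mul_left h7 hP

/-- the line through `x` in direction `i`, parametrised by the `i`-th coordinate -/
noncomputable def line (x : E n) (i : Fin n) (s : ℝ) : E n := x + (s - x i) • ee i

theorem line_self (x : E n) (i : Fin n) : line x i (x i) = x := by simp [line]

theorem line_add (x : E n) (i : Fin n) (s P : ℝ) : line x i (s + P) = line x i s + P • ee i := by
  simp only [line]
  rw [add_assoc, ← add_smul]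
  congr 2
  ring

theorem line_hasDerivAt (x : E n) (i : Fin n) (s : ℝ) : HasDerivAt (line x i) (ee i) s := by
  have h1 : HasDerivAt (fun s : ℝ => s - x i) 1 s := (hasDerivAt_id s).sub_const _
  have h2 := (h1.smul_const (ee i)).const_add x
  rw [one_smul] at h2
  exact h2

theorem continuous_line (x : E n) (i : Fin n) : Continuous (line x i) :=
  continuous_iff_continuousAt.2 fun s => (line_hasDerivAt x i s).continuousAt

theorem word_bound {P : ℝ} (hP : 0 < P) {f : E n → ℝ} (hf : ContDiff ℝ ∞ f) (hp : Per P f)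
    (w : List (Fin n)) (i : Fin n) (x : E n) :
    (Dw w f x) ^ 2 ≤ (1 / P + 1) * ∫ s in (0 : ℝ)..P,
      ((Dw w f (line x i s)) ^ 2 + (Dw (i :: w) f (line x i s)) ^ 2) := by
  have h1 := one_dim hP (g := fun s => Dw w f (line x i s))
    (g' := fun s => Dw (i :: w) f (line x i s)) (fun s => by
      have h2 := ((contDiff_Dw hf w).differentiable (by simp) (line x i s)).hasFDerivAt
      exact h2.comp_hasDerivAt s (line_hasDerivAt x i s))
    ((contDiff_Dw hf (i :: w)).continuous.comp (continuous_line x i))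
    (fun s => by
      simp only [line_add]
      exact (hp.Dw w) i _) (x i)
  simpa only [line_self] using h1

theorem continuous_Sk {f : E n → ℝ} (hf : ContDiff ℝ ∞ f) (k : ℕ) : Continuous (Sk k f) :=
  continuous_finsetSum _ fun _ _ => (contDiff_Dw hf _).continuous.pow 2

theorem Sk_nonneg (k : ℕ) (f : E n → ℝ) (x : E n) : 0 ≤ Sk k f x :=
  Finset.sum_nonneg fun _ _ => sq_nonneg _

theorem sum_cons_le (k : ℕ) (i : Fin n) (f : E n → ℝ) (y : E n) :
    ∑ v : Fin k → Fin n, (Dw (i :: List.ofFn v) f y) ^ 2 ≤ Sk (k + 1) f y := by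
  unfold Sk
  have hinj : Function.Injective (fun v : Fin k → Fin n => (Fin.cons i v : Fin (k + 1) → Fin n)) :=
    Fin.cons_right_injective (α := fun _ => Fin n) i
  have h1 : ∑ v : Fin k → Fin n, (Dw (i :: List.ofFn v) f y) ^ 2 =
      ∑ u ∈ Finset.univ.map ⟨_, hinj⟩, (Dw (List.ofFn u) f y) ^ 2 := by
    rw [Finset.sum_map]
    refine Finset.sum_congr rfl fun v _ => ?_
    simp [List.ofFn_succ]
  rw [h1]
  exact Finset.sum_le_univ_sum_of_nonneg fun _ => sq_nonneg _

theorem Sk_bound {P : ℝ} (hP : 0 < P) {f : E n → ℝ} (hf : ContDiff ℝ ∞ f) (hp : Per P f)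
    (k : ℕ) (i : Fin n) (x : E n) :
    Sk k f x ≤ (1 / P + 1) * ∫ s in (0 : ℝ)..P,
      (Sk k f (line x i s) + Sk (k + 1) f (line x i s)) := by
  have hc : ∀ w : List (Fin n), Continuous fun s => Dw w f (line x i s) := fun w =>
    (contDiff_Dw hf w).continuous.comp (continuous_line x i)
  calc Sk k f x ≤ ∑ v : Fin k → Fin n, (1 / P + 1) * ∫ s in (0 : ℝ)..P,
        ((Dw (List.ofFn v) f (line x i s)) ^ 2 + (Dw (i :: List.ofFn v) f (line x i s)) ^ 2) :=
        Finset.sum_le_sum fun v _ => word_bound hP hf hp _ i x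
    _ = (1 / P + 1) * ∫ s in (0 : ℝ)..P, ∑ v : Fin k → Fin n,
        ((Dw (List.ofFn v) f (line x i s)) ^ 2 + (Dw (i :: List.ofFn v) f (line x i s)) ^ 2) := by
        rw [← Finset.mul_sum, intervalIntegral.integral_finsetSum]
        intro v _
        exact (((hc _).pow 2).add ((hc _).pow 2)).intervalIntegrable _ _
    _ ≤ _ := by
        refine mul_le_mul_of_nonneg_left ?_ (by positivity)
        refine intervalIntegral.integral_mono_on hP.le ?_ ?_ fun s _ => ?_
        · exact (continuous_finsetSum _ fun v _ =>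
            ((hc _).pow 2).add ((hc _).pow 2)).intervalIntegrable _ _
        · exact (((continuous_Sk hf k).comp (continuous_line x i)).add
            ((continuous_Sk hf (k + 1)).comp (continuous_line x i))).intervalIntegrable _ _
        · rw [Finset.sum_add_distrib]
          exact add_le_add le_rfl (sum_cons_le k i f _)

/-- `∑_{|w| ≤ k} (D_w f)²` -/
noncomputable def Sle (k : ℕ) (f : E n → ℝ) (x : E n) : ℝ :=
  ∑ k' ∈ Finset.range (k + 1), Sk k' f x

theorem continuous_Sle {f : E n → ℝ} (hf : ContDiff ℝ ∞ f) (k : ℕ) : Continuous (Sle k f) :=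
  continuous_finsetSum _ fun _ _ => continuous_Sk hf _

theorem Sle_nonneg (k : ℕ) (f : E n → ℝ) (x : E n) : 0 ≤ Sle k f x :=
  Finset.sum_nonneg fun _ _ => Sk_nonneg _ _ _

theorem Sle_bound {P : ℝ} (hP : 0 < P) {f : E n → ℝ} (hf : ContDiff ℝ ∞ f) (hp : Per P f)
    (k : ℕ) (i : Fin n) (x : E n) :
    Sle k f x ≤ (2 * (1 / P + 1)) * ∫ s in (0 : ℝ)..P, Sle (k + 1) f (line x i s) := by
  have hc : ∀ k, Continuous fun s => Sk k f (line x i s) := fun k =>
    (continuous_Sk hf k).comp (continuous_line x i)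
  calc Sle k f x ≤ ∑ k' ∈ Finset.range (k + 1), (1 / P + 1) * ∫ s in (0 : ℝ)..P,
        (Sk k' f (line x i s) + Sk (k' + 1) f (line x i s)) :=
        Finset.sum_le_sum fun k' _ => Sk_bound hP hf hp k' i x
    _ = (1 / P + 1) * ∫ s in (0 : ℝ)..P, ∑ k' ∈ Finset.range (k + 1),
        (Sk k' f (line x i s) + Sk (k' + 1) f (line x i s)) := by
        rw [← Finset.mul_sum, intervalIntegral.integral_finsetSum]
        intro k' _
        exact ((hc _).add (hc _)).intervalIntegrable _ _
    _ ≤ (1 / P + 1) * ∫ s in (0 : ℝ)..P, 2 * Sle (k + 1) f (line x i s) := by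
        refine mul_le_mul_of_nonneg_left ?_ (by positivity)
        refine intervalIntegral.integral_mono_on hP.le ?_ ?_ fun s _ => ?_
        · exact (continuous_finsetSum _ fun k' _ => (hc _).add (hc _)).intervalIntegrable _ _
        · exact (continuous_const.mul ((continuous_Sle hf (k + 1)).comp
            (continuous_line x i))).intervalIntegrable _ _
        · rw [Finset.sum_add_distrib, two_mul]
          refine add_le_add ?_ ?_
          · unfold Sle
            rw [Finset.sum_range_succ _ (k + 1)]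
            have := Sk_nonneg (k + 1) f (line x i s)
            linarith
          · unfold Sle
            rw [Finset.sum_range_succ' _ (k + 1)]
            have := Sk_nonneg 0 f (line x i s)
            linarith
    _ = _ := by
        rw [intervalIntegral.integral_const_mul]
        ring

theorem line_toLp (x : Fin n → ℝ) (i : Fin n) (s : ℝ) :
    line (WithLp.toLp 2 x : E n) i s = WithLp.toLp 2 (Function.update x i s) := by
  ext j
  unfold line
  by_cases h : j = i
  · subst h; simp
  · simp [h]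

/-- the `ENNReal`-valued version of `Sle` on `Fin n → ℝ` -/
noncomputable def GG (k : ℕ) (f : E n → ℝ) (x : Fin n → ℝ) : ℝ≥0∞ :=
  ENNReal.ofReal (Sle k f (WithLp.toLp 2 x))

theorem measurable_GG {f : E n → ℝ} (hf : ContDiff ℝ ∞ f) (k : ℕ) : Measurable (GG k f) :=
  (ENNReal.continuous_ofReal.comp ((continuous_Sle hf k).comp
    (PiLp.continuous_toLp 2 _))).measurable

theorem GG_bound {P : ℝ} (hP : 0 < P) {f : E n → ℝ} (hf : ContDiff ℝ ∞ f) (hp : Per P f)
    (k : ℕ) (i : Fin n) (x : Fin n → ℝ) :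
    GG k f x ≤ ENNReal.ofReal (2 * (1 / P + 1)) *
      ∫⁻ s in Ico 0 P, GG (k + 1) f (Function.update x i s) := by
  have h1 := Sle_bound hP hf hp k i (WithLp.toLp 2 x)
  have hc : Continuous fun s => Sle (k + 1) f (line (WithLp.toLp 2 x) i s) :=
    (continuous_Sle hf (k + 1)).comp (continuous_line _ i)
  have h2 : ENNReal.ofReal (∫ s in (0 : ℝ)..P, Sle (k + 1) f (line (WithLp.toLp 2 x) i s)) =
      ∫⁻ s in Ico 0 P, GG (k + 1) f (Function.update x i s) := by
    rw [intervalIntegral.integral_of_le hP.le, ← integral_Ico_eq_integral_Ioc,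
      ofReal_integral_eq_lintegral_ofReal]
    · simp only [line_toLp, GG]
    · exact (hc.continuousOn.integrableOn_compact isCompact_Icc).mono_set Ico_subset_Icc_self
    · exact Eventually.of_forall fun s => Sle_nonneg _ _ _
  rw [← h2, ← ENNReal.ofReal_mul (by positivity)]
  exact ENNReal.ofReal_le_ofReal h1

theorem marginal_bound {P : ℝ} (hP : 0 < P) {f : E n → ℝ} (hf : ContDiff ℝ ∞ f) (hp : Per P f)
    (x : Fin n → ℝ) (s : Finset (Fin n)) :
    GG 0 f x ≤ lmarginal (fun _ : Fin n => (volume : Measure ℝ).restrict (Ico 0 P)) s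
      (fun y => ENNReal.ofReal (2 * (1 / P + 1)) ^ s.card * GG s.card f y) x := by
  induction s using Finset.induction_on with
  | empty => simp
  | insert i s hi ih =>
    refine ih.trans ?_
    rw [Finset.card_insert_of_notMem hi, lmarginal_insert' _ _ hi]
    · refine lmarginal_mono (fun y => ?_) x
      have hm : Measurable fun t : ℝ => GG (s.card + 1) f (Function.update y i t) :=
        (measurable_GG hf _).comp (measurable_update y)
      rw [lintegral_const_mul _ hm, pow_succ, mul_assoc]
      gcongr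
      exact GG_bound hP hf hp _ i y
    · exact (measurable_GG hf _).const_mul _

theorem measurableSet_box (P : ℝ) : MeasurableSet {x : E n | ∀ i, x i ∈ Ico 0 P} := by
  have : {x : E n | ∀ i, x i ∈ Ico 0 P} = ⋂ i, {x : E n | x i ∈ Ico 0 P} := by
    ext x; simp
  rw [this]
  refine MeasurableSet.iInter fun i => ?_
  have h : Measurable fun x : E n => x i :=
    (EuclideanSpace.proj (𝕜 := ℝ) i).continuous.measurable
  exact h measurableSet_Ico

theorem integrableOn_box (P : ℝ) {h : E n → ℝ} (hc : Continuous h) :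
    IntegrableOn h {x : E n | ∀ i, x i ∈ Ico 0 P} := by
  have hK : IsCompact ((fun y : Fin n → ℝ => (WithLp.toLp 2 y : E n)) ''
      (Set.pi univ fun _ => Icc 0 P)) :=
    (isCompact_univ_pi fun _ => isCompact_Icc).image (PiLp.continuous_toLp 2 _)
  refine (hc.continuousOn.integrableOn_compact hK).mono_set fun x hx => ?_
  exact ⟨fun i => x i, fun i _ => Ico_subset_Icc_self (hx i), rfl⟩

theorem lintegral_box {P : ℝ} {h : E n → ℝ} (hc : Continuous h) (h0 : ∀ x, 0 ≤ h x) :
    ∫⁻ y, ENNReal.ofReal (h (WithLp.toLp 2 y))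
      ∂(Measure.pi fun _ : Fin n => (volume : Measure ℝ).restrict (Ico 0 P)) =
      ENNReal.ofReal (Iper P h) := by
  unfold Iper
  rw [ofReal_integral_eq_lintegral_ofReal (integrableOn_box P hc) (Eventually.of_forall h0)]
  have h1 := (PiLp.volume_preserving_toLp (Fin n)).setLIntegral_comp_preimage
    (measurableSet_box (n := n) P) (f := fun x => ENNReal.ofReal (h x))
    (ENNReal.continuous_ofReal.comp hc).measurable
  rw [← h1]
  have h2 : (WithLp.toLp 2 : (Fin n → ℝ) → E n) ⁻¹' {x : E n | ∀ i, x i ∈ Ico 0 P} =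
      Set.pi univ fun _ => Ico 0 P := by
    ext y; simp
  rw [h2, ← Measure.restrict_pi_pi]
  rfl

end P3b

open P3b in
theorem sobolev {P : ℝ} (hP : 0 < P) (n : ℕ) : ∃ C : ℝ, 0 ≤ C ∧ ∀ f : E n → ℝ,
    ContDiff ℝ ∞ f → Per P f → ∀ x, (f x) ^ 2 ≤ C * En P n f := by
  refine ⟨(2 * (1 / P + 1)) ^ n, by positivity, fun f hf hp x => ?_⟩
  have h1 := marginal_bound hP hf hp (fun i => x i) Finset.univ
  rw [Finset.card_univ, Fintype.card_fin, ← lintegral_eq_lmarginal_univ,
    lintegral_const_mul _ (measurable_GG hf _)] at h1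
  unfold GG at h1
  rw [lintegral_box (continuous_Sle hf n) (Sle_nonneg n f),
    ← ENNReal.ofReal_pow (by positivity), ← ENNReal.ofReal_mul (by positivity)] at h1
  have h2 : 0 ≤ Iper P (Sle n f) := by
    unfold Iper
    exact integral_nonneg (Sle_nonneg n f)
  have h3 : Sle 0 f x ≤ (2 * (1 / P + 1)) ^ n * Iper P (Sle n f) :=
    (ENNReal.ofReal_le_ofReal_iff (by positivity)).1 h1
  have h4 : Sle 0 f x = (f x) ^ 2 := by
    simp [Sle, Sk]
  have h5 : Iper P (Sle n f) = En P n f := by
    unfold Iper En Sle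
    rw [integral_finsetSum _ fun k _ => integrableOn_box P (continuous_Sk hf k)]
    rfl
  rw [h4, h5] at h3
  exact h3

end Pool.Agent.GR
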