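import Pool.Agent.Helper35.GR.Defs2

/-! MP_114a94_gt, package P14a: joint smoothness of solutions from the smoothness of jets. -/

set_option autoImplicit false

open scoped ContDiff Topology NNReal ENNReal
open Set Filter MeasureTheory

namespace Pool.Agent.GR

open Pool.Agent.Helper25.GrimReaper

variable {n : ℕ}

namespace P14a

/-- the derivative with prescribed partial derivatives -/
noncomputable def Lin (a : Fin n → ℝ) (b : ℝ) : E n × ℝ →L[ℝ] ℝ :=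
  (∑ i, a i • (EuclideanSpace.proj (𝕜 := ℝ) i : E n →L[ℝ] ℝ)).coprod
    (b • (ContinuousLinearMap.id ℝ ℝ))

theorem Lin_eq (a : Fin n → ℝ) (b : ℝ) :
    Lin a b = (∑ i, a i • ((EuclideanSpace.proj (𝕜 := ℝ) i : E n →L[ℝ] ℝ).comp
      (ContinuousLinearMap.fst ℝ (E n) ℝ))) + b • ContinuousLinearMap.snd ℝ (E n) ℝ := by
  ext p <;> simp [Lin]

theorem hasFDerivAt_of_partials {S : Set (E n × ℝ)} (hS : IsOpen S) {f : E n → ℝ → ℝ}
    {G : Fin n → E n × ℝ → ℝ} {G' : E n × ℝ → ℝ}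
    (h1 : ∀ p ∈ S, DifferentiableAt ℝ (fun y => f y p.2) p.1)
    (h2 : ∀ i, ∀ p ∈ S, pd i (fun y => f y p.2) p.1 = G i p)
    (h3 : ∀ p ∈ S, HasDerivAt (fun t => f p.1 t) (G' p) p.2)
    (h4 : ∀ i, ContinuousOn (G i) S) (h5 : ContinuousOn G' S) {p : E n × ℝ} (hp : p ∈ S) :
    HasFDerivAt (fun q : E n × ℝ => f q.1 q.2) (Lin (fun i => G i p) (G' p)) p := by
  have hSp : S ∈ 𝓝 p := hS.mem_nhds hp
  have key := hasStrictFDerivAt_uncurry_coprod (𝕜 := ℝ) (u := p) (f := f)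
    (f₁ := fun x t => ∑ i, G i (x, t) • (EuclideanSpace.proj (𝕜 := ℝ) i : E n →L[ℝ] ℝ))
    (f₂ := fun x t => G' (x, t) • ContinuousLinearMap.id ℝ ℝ) ?_ ?_ ?_ ?_
  · exact key.hasFDerivAt
  · filter_upwards [hSp] with v hv
    refine (h1 v hv).hasFDerivAt.congr_fderiv ?_
    ext w
    rw [fderiv_apply_eq_sum]
    simp only [Function.HasUncurry.uncurry, id, _root_.sum_apply, _root_.smul_apply, smul_eq_mul]
    refine Finset.sum_congr rfl fun i _ => ?_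
    rw [h2 i v hv, mul_comm]
    rfl
  · filter_upwards [hSp] with v hv
    refine (h3 v hv).hasFDerivAt.congr_fderiv ?_
    ext
    simp [Function.HasUncurry.uncurry]
  · have : ContinuousAt (fun q : E n × ℝ =>
        ∑ i, G i q • (EuclideanSpace.proj (𝕜 := ℝ) i : E n →L[ℝ] ℝ)) p :=
      tendsto_finsetSum _ fun i _ => ((h4 i).continuousAt hSp).smul continuousAt_const
    exact this
  · have : ContinuousAt (fun q : E n × ℝ => G' q • ContinuousLinearMap.id ℝ ℝ) p :=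
      (h5.continuousAt hSp).smul continuousAt_const
    exact this

theorem contDiffOn_succ_of_partials {S : Set (E n × ℝ)} (hS : IsOpen S) {f : E n → ℝ → ℝ}
    {G : Fin n → E n × ℝ → ℝ} {G' : E n × ℝ → ℝ} (m : ℕ)
    (h1 : ∀ p ∈ S, DifferentiableAt ℝ (fun y => f y p.2) p.1)
    (h2 : ∀ i, ∀ p ∈ S, pd i (fun y => f y p.2) p.1 = G i p)
    (h3 : ∀ p ∈ S, HasDerivAt (fun t => f p.1 t) (G' p) p.2)
    (h4 : ∀ i, ContDiffOn ℝ m (G i) S) (h5 : ContDiffOn ℝ m G' S) :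
    ContDiffOn ℝ (m + 1 : ℕ) (fun q : E n × ℝ => f q.1 q.2) S := by
  have hd : ∀ p ∈ S, HasFDerivAt (fun q : E n × ℝ => f q.1 q.2)
      (Lin (fun i => G i p) (G' p)) p := fun p hp =>
    hasFDerivAt_of_partials hS h1 h2 h3 (fun i => (h4 i).continuousOn) h5.continuousOn hp
  push_cast
  rw [contDiffOn_succ_iff_fderiv_of_isOpen hS]
  refine ⟨fun p hp => (hd p hp).differentiableAt.differentiableWithinAt, by simp, ?_⟩
  have h6 : ContDiffOn ℝ m (fun p => Lin (fun i => G i p) (G' p)) S := by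
    simp only [Lin_eq]
    exact (ContDiffOn.sum fun i _ => (h4 i).smul contDiffOn_const).add
      (h5.smul contDiffOn_const)
  exact h6.congr fun p hp => (hd p hp).fderiv

/-- Everything that is used about differential polynomials. -/
theorem main {Ω : Set (E n)} (hΩ : IsOpen Ω) {u : ℝ → E n → ℝ} (hu : IsSolOn (Ioi 0) Ω u)
    (DPcont : ∀ {q m : ℕ} {f : Jet n → ℝ}, DP q m f → Continuous f)
    (DPsm : ∀ {q m : ℕ} {f : Jet n → ℝ}, DP q m f → ∀ {Ω : Set (E n)}, IsOpen Ω →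
      ∀ {u : E n → ℝ}, ContDiffOn ℝ ∞ u Ω → ContDiffOn ℝ ∞ (fun x => f (jet u x)) Ω)
    (DPpd : ∀ {q m : ℕ} {f : Jet n → ℝ}, DP q m f → ∀ i : Fin n,
      ∃ g : Jet n → ℝ, DP (q + 1) (m + 1) g ∧ ∀ (Ω : Set (E n)) (_ : IsOpen Ω) (u : E n → ℝ),
        ContDiffOn ℝ ∞ u Ω → ∀ x ∈ Ω, pd i (fun y => f (jet u y)) x = g (jet u x))
    (DPF : ∃ G : Jet n → ℝ, DP 1 1 G ∧
      ∀ (Ω : Set (E n)) (_ : IsOpen Ω) (u : E n → ℝ), ContDiffOn ℝ ∞ u Ω → ∀ x ∈ Ω,
        Dw [] (Fop u) x = G (jet u x))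
    (DPdt : ∀ {q m : ℕ} {f : Jet n → ℝ}, DP q m f →
      ∃ g : Jet n → ℝ, DP (q + 2) (m + 2) g ∧
        ∀ (I : Set ℝ) (Ω : Set (E n)) (_ : IsOpen Ω) (u : ℝ → E n → ℝ), IsSolOn I Ω u →
          ∀ t ∈ I, ∀ x ∈ Ω,
            HasDerivWithinAt (fun s => f (jet (u s) x)) (g (jet (u t) x)) I t) :
    ContDiffOn ℝ ∞ (fun p : E n × ℝ => u p.2 p.1) (Ω ×ˢ Ioi (0 : ℝ)) := by
  have hS : IsOpen (Ω ×ˢ Ioi (0 : ℝ)) := hΩ.prod isOpen_Ioi
  have hjet : ∀ w : List (Fin n),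
      ContinuousOn (fun p : E n × ℝ => Dw w (u p.2) p.1) (Ω ×ˢ Ioi (0 : ℝ)) := fun w =>
    (hu.cont w).comp (f := fun p : E n × ℝ => (p.2, p.1)) (by fun_prop)
      fun p hp => ⟨hp.2, hp.1⟩
  have hDP : ∀ m : ℕ, ∀ (q k : ℕ) (g : Jet n → ℝ), DP q k g →
      ContDiffOn ℝ m (fun p : E n × ℝ => g (jet (u p.2) p.1)) (Ω ×ˢ Ioi (0 : ℝ)) := by
    intro m
    induction m with
    | zero =>
      intro q k g hg
      rw [Nat.cast_zero, contDiffOn_zero]
      refine (DPcont hg).comp_continuousOn ?_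
      exact continuousOn_pi.2 fun w => hjet w
    | succ m ih =>
      intro q k g hg
      choose g' hg' hg'' using DPpd hg
      obtain ⟨h, hh, hh'⟩ := DPdt hg
      refine contDiffOn_succ_of_partials hS (f := fun x t => g (jet (u t) x))
        (G := fun i p => g' i (jet (u p.2) p.1)) (G' := fun p => h (jet (u p.2) p.1)) m
        (fun p hp => ?_) (fun i p hp => ?_) (fun p hp => ?_) (fun i => ih _ _ _ (hg' i))
        (ih _ _ _ hh)
      · exact ((DPsm hg hΩ (hu.smooth p.2 hp.2)).contDiffAt (hΩ.mem_nhds hp.1)).differentiableAt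
          (by simp)
      · exact hg'' i Ω hΩ (u p.2) (hu.smooth p.2 hp.2) p.1 hp.1
      · exact (hh' _ Ω hΩ u hu p.2 hp.2 p.1 hp.1).hasDerivAt (isOpen_Ioi.mem_nhds hp.2)
  rw [contDiffOn_infty]
  intro m
  refine ContDiffOn.of_le (n := ((m + 1 : ℕ) : ℕ∞)) ?_ (by norm_cast; omega)
  obtain ⟨F, hF, hF'⟩ := DPF
  refine contDiffOn_succ_of_partials hS (f := fun x t => u t x)
    (G := fun i p => Dw [i] (u p.2) p.1) (G' := fun p => F (jet (u p.2) p.1)) m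
    (fun p hp => ?_) (fun i p hp => rfl) (fun p hp => ?_) (fun i => ?_) (hDP m _ _ _ hF)
  · exact ((hu.smooth p.2 hp.2).contDiffAt (hΩ.mem_nhds hp.1)).differentiableAt (by simp)
  · have := (hu.deriv [] p.2 hp.2 p.1 hp.1).hasDerivAt (isOpen_Ioi.mem_nhds hp.2)
    rw [hF' Ω hΩ (u p.2) (hu.smooth p.2 hp.2) p.1 hp.1] at this
    exact this
  · exact hDP m 0 0 _ (DP.base (fun a => a i) (by fun_prop))

end P14a

end Pool.Agent.GR
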